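import Mathlib
import Pool.Agent.X72.CatDiv

set_option autoImplicit false

/-!
`MP_558b4e_nt`, Q1 (affirmative, complete): for every positive integer `n` the set `S(n)` of positive
integers `m` coprime to `n` with `m n ∣ C(m + n)` (`C` the Catalan numbers) is nonempty; it is even
infinite.
-/

namespace Pool.Agent.Results.MP_558b4e_nt.CatalanMultipliers

/-- The Catalan number `C(k) = binom(2k, k) / (k + 1)`. -/
def C (k : ℕ) : ℕ := Nat.choose (2 * k) k / (k + 1)

/-- `S(n) = { m > 0 : gcd(m, n) = 1 and m n ∣ C(m + n) }`. -/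
def S (n : ℕ) : Set ℕ := {m : ℕ | 0 < m ∧ Nat.gcd m n = 1 ∧ m * n ∣ C (m + n)}

theorem result : ∀ n : ℕ, 0 < n → (S n).Nonempty ∧ (S n).Infinite := by
  intro n hn
  have key : ∀ B : ℕ, ∃ m, B < m ∧ m ∈ S n := by
    intro B
    obtain ⟨m, hB, h0, h1, h2⟩ := Pool.Agent.X72.CatDiv.main n hn B
    refine ⟨m, hB, h0, h1, ?_⟩
    rw [catalan_eq_centralBinom_div, Nat.centralBinom_eq_two_mul_choose] at h2
    exact h2
  refine ⟨?_, ?_⟩
  · obtain ⟨m, -, hm⟩ := key 0
    exact ⟨m, hm⟩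
  · apply Set.infinite_of_not_bddAbove
    rintro ⟨B, hB⟩
    obtain ⟨m, hm, hmS⟩ := key B
    exact absurd (hB hmS) (by omega)

end Pool.Agent.Results.MP_558b4e_nt.CatalanMultipliers
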